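import Pool.Agent.H4.TA.Targets

/-! tas_modules row TR1: subsets with `K` elements which avoid a given set. -/

set_option autoImplicit false

namespace Pool.Agent.H80.TA

open Finset
open Pool.Agent.H4.TA

theorem pf_TR1 : T_TR1 := by
  intro V _ _ K A
  have h : ((powersetCard K (univ : Finset V)).filter fun S => Disjoint S A) =
      powersetCard K (univ \ A) := by
    ext S
    simp only [mem_filter, mem_powersetCard, subset_univ, true_and]
    constructor
    · rintro ⟨h1, h2⟩
      refine ⟨?_, h1⟩
      intro x hx
      rw [mem_sdiff]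
      exact ⟨mem_univ x, fun hA => (Finset.disjoint_left.mp h2) hx hA⟩
    · rintro ⟨h1, h2⟩
      refine ⟨h2, ?_⟩
      rw [Finset.disjoint_left]
      intro x hx hA
      exact (mem_sdiff.mp (h1 hx)).2 hA
  rw [h, card_powersetCard, card_univ_sdiff]

end Pool.Agent.H80.TA
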